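import Pool.Agent.X197.Varisolvent

/-!
# MP_850d3d_an, Q1: closedness of surfaces generated by varisolvent functions

If `g` is varisolvent on a finite set and its surface is connected, then the surface is not closed.
-/

set_option autoImplicit false

namespace Pool.Agent.Results.MP_850d3d_an.NotClosed

open Pool.Agent.X197.Varisolvent

theorem result {Q : Type*} [Finite Q] {A : Type*} (g : A → Q → ℝ) (hg : Varisolvent g)
    (hc : IsConnected (Set.range g)) : ¬ IsClosed (Set.range g) :=
  main hg hc.isPreconnected

end Pool.Agent.Results.MP_850d3d_an.NotClosed
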